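import Pool.Agent.Q18.KZ.S4
import Pool.Agent.W761.MO.BTR

/-!
# Project KZ (helper18): job ENV, construction of the environment
-/

set_option autoImplicit false

namespace Pool.Agent.Q208.KZ

open Finset Filter Topology
open scoped Classical
open Pool.Agent.W76.MO (hh nc cell lp Rough)
open Pool.Agent.Q240.KS (MAINP pic)
open Pool.Agent.Q18.KZ

/-- `hh δ i ≥ 2^(0.1 i)` -/
theorem hh_lb {δ : ℝ} (hδ' : δ ≤ 1 / 100) {i : ℕ} (hi : 1000 ≤ i) :
    (2 : ℝ) ^ (0.1 * (i : ℝ)) ≤ hh δ i := by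
  have hiR : (1000 : ℝ) ≤ i := by exact_mod_cast hi
  have h1 : 0.1 * (i : ℝ) ≤ (⌊(1 / 2 - δ) * (i : ℝ)⌋₊ : ℝ) := by
    have h2 : (1 / 2 - δ) * (i : ℝ) < (⌊(1 / 2 - δ) * (i : ℝ)⌋₊ : ℝ) + 1 := Nat.lt_floor_add_one _
    nlinarith
  calc (2 : ℝ) ^ (0.1 * (i : ℝ)) ≤ (2 : ℝ) ^ ((⌊(1 / 2 - δ) * (i : ℝ)⌋₊ : ℝ)) :=
        Real.rpow_le_rpow_of_exponent_le (by norm_num) h1
    _ = hh δ i := by
        rw [Real.rpow_natCast]
        simp [hh]

theorem hh_pos (δ : ℝ) (i : ℕ) : 0 < hh δ i := by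
  unfold hh
  positivity

/-- the cell `(i, k)` as `Ioc a (a + hh)` -/
theorem cell_eq (δ : ℝ) (i k : ℕ) :
    cell δ i k = Ioc (2 ^ i + k * hh δ i) (2 ^ i + k * hh δ i + hh δ i) := by
  unfold cell
  congr 1
  ring

theorem np_le {δ CB : ℝ} {i : ℕ} (hi : 1000 ≤ i) (hδ' : δ ≤ 1 / 100)
    (hb : ∀ a L : ℕ, (2 : ℝ) ^ (0.1 * (i : ℝ)) ≤ L →
      (((Ioc a (a + L)).filter (fun n => Rough ((2 : ℝ) ^ (0.24 * (i : ℝ))) n)).card : ℝ) ≤
        CB * L / i) (k : ℕ) : np δ i k ≤ CB * hh δ i / i := by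
  refine le_trans ?_ (hb (2 ^ i + k * hh δ i) (hh δ i) (hh_lb hδ' hi))
  unfold np
  have : ((cell δ i k).filter Nat.Prime) ⊆
      (Ioc (2 ^ i + k * hh δ i) (2 ^ i + k * hh δ i + hh δ i)).filter
        (fun n => Rough ((2 : ℝ) ^ (0.24 * (i : ℝ))) n) := by
    intro n hn
    rw [mem_filter, cell_eq] at hn
    rw [mem_filter]
    refine ⟨hn.1, ?_⟩
    intro p hp hpn
    have hpe : p = n := (Nat.prime_dvd_prime_iff_eq hp hn.2).mp hpn
    subst hpe
    have h1 : 2 ^ i < p := by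
      have := (mem_Ioc.mp hn.1).1
      have h2 : 0 ≤ k * hh δ i := Nat.zero_le _
      omega
    have h3 : ((2 : ℝ) ^ i) ≤ p := by
      have : ((2 ^ i : ℕ) : ℝ) ≤ p := by exact_mod_cast h1.le
      simpa using this
    refine le_trans ?_ h3
    rw [← Real.rpow_natCast]
    apply Real.rpow_le_rpow_of_exponent_le (by norm_num)
    have : (0 : ℝ) ≤ i := Nat.cast_nonneg _
    nlinarith
  exact_mod_cast card_le_card this

/-- the numerical inequality for `card2` -/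
theorem num2 {δ : ℝ} (hδ : 0 < δ) (hδ' : δ ≤ 1 / 10 ^ 24) {i : ℕ} (hi : 4000 ≤ i) :
    (2 : ℝ) ^ (0.045 * (i : ℝ)) * (2 : ℝ) ^ ((0.07 + δ) * (i : ℝ) + 1) + (2 : ℝ) ^ (0.1162 * (i : ℝ)) ≤
      (2 : ℝ) ^ (0.1165 * (i : ℝ)) := by
  have hiR : (4000 : ℝ) ≤ i := by exact_mod_cast hi
  have hd : δ * (i : ℝ) ≤ 1 / 10 ^ 24 * i := mul_le_mul_of_nonneg_right hδ' (by linarith)
  have h1 : (2 : ℝ) ^ (0.045 * (i : ℝ)) * (2 : ℝ) ^ ((0.07 + δ) * (i : ℝ) + 1) ≤
      (2 : ℝ) ^ (0.1162 * (i : ℝ)) := by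
    rw [← Real.rpow_add (by norm_num)]
    apply Real.rpow_le_rpow_of_exponent_le (by norm_num)
    have h2 : (0.07 + δ) * (i : ℝ) = 0.07 * i + δ * i := by ring
    rw [h2]
    have h3 : (1 : ℝ) / 10 ^ 24 * i ≤ 0.0001 * i :=
      mul_le_mul_of_nonneg_right (by norm_num) (by linarith)
    linarith
  have h4 : (2 : ℝ) ^ (0.1162 * (i : ℝ)) + (2 : ℝ) ^ (0.1162 * (i : ℝ)) ≤ (2 : ℝ) ^ (0.1165 * (i : ℝ)) := by
    have h5 : (2 : ℝ) ^ (0.1162 * (i : ℝ)) + (2 : ℝ) ^ (0.1162 * (i : ℝ)) =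
        (2 : ℝ) ^ (0.1162 * (i : ℝ) + 1) := by
      rw [Real.rpow_add (by norm_num), Real.rpow_one]
      ring
    rw [h5]
    apply Real.rpow_le_rpow_of_exponent_le (by norm_num)
    linarith
  linarith

theorem t_ENV : S_SI → S_US → S_BAD0 → S_BLK → S_BLC → S_PRT → S_ENV := by
  intro hSI hUS hBAD0 hBLK hBLC hPRT hW0 hW1 hE
  obtain ⟨cs, δs, hcs, hδs, hSI⟩ := hSI
  obtain ⟨cu, cq, δu, hcu, hcq, hδu, hUS⟩ := hUS hE
  obtain ⟨cW, δW, hcW, hδW, hBAD⟩ := hBAD0 hW0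
  obtain ⟨c1, hc1, iB, hBLK⟩ := hBLK hW1
  obtain ⟨CB0, hCB0, ib, -, hbtr⟩ := Pool.Agent.W761.MO.btr 0.24 0.1 (by norm_num) (by norm_num)
  set CB : ℝ := max CB0 1 with hCBdef
  have hCB1 : 1 ≤ CB := le_max_right _ _
  set cU : ℝ := min cW (min (c1 / 4) (cs / 2)) with hcUdef
  have hcU : 0 < cU := lt_min hcW (lt_min (by positivity) (by positivity))
  have hcUW : cU ≤ cW := min_le_left _ _
  have hcU1 : cU ≤ c1 / 4 := (min_le_right _ _).trans (min_le_left _ _)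
  have hcUs : cU ≤ cs / 2 := (min_le_right _ _).trans (min_le_right _ _)
  set δ : ℝ := min δW (min δs (min δu (1 / 10 ^ 24))) with hδdef
  have hδ : 0 < δ := lt_min hδW (lt_min hδs (lt_min hδu (by positivity)))
  have hδW' : δ ≤ δW := min_le_left _ _
  have hδs' : δ ≤ δs := (min_le_right _ _).trans (min_le_left _ _)
  have hδu' : δ ≤ δu := (min_le_right _ _).trans ((min_le_right _ _).trans (min_le_left _ _))
  have hδ24 : δ ≤ 1 / 10 ^ 24 := (min_le_right _ _).trans ((min_le_right _ _).trans (min_le_right _ _))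
  have hδ100 : δ ≤ 1 / 100 := hδ24.trans (by norm_num)
  obtain ⟨i1, hSI⟩ := hSI δ hδ hδs'
  obtain ⟨i2, hUS⟩ := hUS δ hδ hδu' (⌈2 * CB / c1⌉₊ + 1)
  obtain ⟨i3, hBAD⟩ := hBAD δ hδ hδW'
  obtain ⟨i₁, hi4000, hi1, hi2, hi3, hiB, hib⟩ : ∃ i₁ : ℕ, 4000 ≤ i₁ ∧ i1 ≤ i₁ ∧ i2 ≤ i₁ ∧ i3 ≤ i₁ ∧
      iB ≤ i₁ ∧ ib ≤ i₁ :=
    ⟨4000 + i1 + i2 + i3 + iB + ib, by omega, by omega, by omega, by omega, by omega, by omega⟩
  have hbtr' : ∀ i : ℕ, i₁ ≤ i → ∀ a L : ℕ, (2 : ℝ) ^ (0.1 * (i : ℝ)) ≤ L →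
      (((Ioc a (a + L)).filter (fun n => Rough ((2 : ℝ) ^ (0.24 * (i : ℝ))) n)).card : ℝ) ≤
        CB * L / i := by
    intro i hi a L hL
    refine (hbtr i (hib.trans hi) a L hL).trans ?_
    have : CB0 * (L : ℝ) ≤ CB * L := mul_le_mul_of_nonneg_right (le_max_left _ _) (Nat.cast_nonneg _)
    exact div_le_div_of_nonneg_right this (Nat.cast_nonneg _)
  -- the partners
  have hP : ∀ i : ℕ, ∃ pk : ℕ → ℕ, i₁ ≤ i →
      ((∀ k : ℕ, k < nc δ i → np δ i k < cU * hh δ i / i → c1 * HB i / i ≤ nb i (bl δ i k) →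
        pk k < nc δ i ∧ cU * hh δ i / i ≤ np δ i (pk k) ∧
          |(k : ℝ) - pk k| * hh δ i ≤ (2 : ℝ) ^ (0.57 * (i : ℝ))) ∧
      ∀ k' : ℕ, ((range (nc δ i)).filter (fun k => np δ i k < cU * hh δ i / i ∧
        c1 * HB i / i ≤ nb i (bl δ i k) ∧ pk k = k')).card ≤ ⌈2 * CB / c1⌉₊ + 1) := by
    intro i
    by_cases hi : i₁ ≤ i
    · obtain ⟨pk, h⟩ := hPRT δ c1 cU CB i hδ hδ100 hc1 hcU hcU1 hCB1 (by omega)
        (fun k _ => np_le (by omega) hδ100 (hbtr' i hi) k)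
      exact ⟨pk, fun _ => h⟩
    · exact ⟨fun _ => 0, fun h => absurd h hi⟩
  choose pi hpi using hP
  set Bad : ℕ → Finset ℕ := fun i => (range (nc δ i)).filter (fun k => np δ i k < cU * hh δ i / i)
    with hBaddef
  set Bs : ℕ → Finset ℕ := fun i => (Bad i).filter (fun k => c1 * HB i / i ≤ nb i (bl δ i k))
    with hBsdef
  set Lt : ℕ → ℕ → Prop := fun i q => (((VR i).filter
    (fun v => v * q ∈ ActD δ i (Bs i ∪ (Bs i).image (pi i)))).card : ℝ) ≤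
      (2 : ℝ) ^ ((5 / 26 - 1 / 2000) * (i : ℝ)) with hLtdef
  set Us : ℕ → ℕ → Finset ℕ := fun i k => (VR i).filter (fun v =>
    cq * hh δ i / (v * i) ≤ ((LqD δ Lt i k v).card : ℝ) ∧
      cq * hh δ i / (v * i) ≤ ((LqD δ Lt i (pi i k) v).card : ℝ)) with hUsdef
  set B1 : ℕ → Finset ℕ := fun i => (Bs i).filter (fun k => cu ≤ ∑ v ∈ Us i k, 1 / (v : ℝ)) with hB1def
  set B2 : ℕ → Finset ℕ := fun i => Bad i \ B1 i with hB2def
  have mBad : ∀ i k : ℕ, k ∈ Bad i ↔ k < nc δ i ∧ np δ i k < cU * hh δ i / i := by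
    intro i k
    rw [hBaddef]
    simp only [mem_filter, mem_range]
  have mBs : ∀ i k : ℕ, k ∈ Bs i ↔ k ∈ Bad i ∧ c1 * HB i / i ≤ nb i (bl δ i k) := by
    intro i k
    rw [hBsdef]
    simp only [mem_filter]
  have mB1 : ∀ i k : ℕ, k ∈ B1 i ↔ k ∈ Bs i ∧ cu ≤ ∑ v ∈ Us i k, 1 / (v : ℝ) := by
    intro i k
    rw [hB1def]
    simp only [mem_filter]
  have mB2 : ∀ i k : ℕ, k ∈ B2 i ↔ k ∈ Bad i ∧ k ∉ B1 i := by
    intro i k
    rw [hB2def]
    simp only [Finset.mem_sdiff]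
  have hB1s : ∀ i : ℕ, B1 i ⊆ Bs i := fun i k hk => ((mB1 i k).mp hk).1
  have hBsB : ∀ i : ℕ, Bs i ⊆ Bad i := fun i k hk => ((mBs i k).mp hk).1
  have hU : ∀ i : ℕ, B1 i ∪ B2 i = Bad i := by
    intro i
    ext k
    rw [mem_union, mB2]
    constructor
    · rintro (h | h)
      · exact hBsB i (hB1s i h)
      · exact h.1
    · intro h
      by_cases hk : k ∈ B1 i
      · exact Or.inl hk
      · exact Or.inr ⟨h, hk⟩
  have hcardBad : ∀ i : ℕ, i₁ ≤ i → ((Bad i).card : ℝ) ≤ (2 : ℝ) ^ (0.306 * (i : ℝ)) := by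
    intro i hi
    refine le_trans ?_ (hBAD i (hi3.trans hi))
    have : Bad i ⊆ (range (nc δ i)).filter (fun k => np δ i k < cW * hh δ i / i) := by
      intro k hk
      have h := (mBad i k).mp hk
      rw [mem_filter, mem_range]
      refine ⟨h.1, h.2.trans_le ?_⟩
      exact div_le_div_of_nonneg_right (mul_le_mul_of_nonneg_right hcUW (Nat.cast_nonneg _))
        (Nat.cast_nonneg _)
    exact_mod_cast card_le_card this
  have hPg : ∀ i : ℕ, i₁ ≤ i → ∀ k ∈ Bs i, pi i k < nc δ i ∧ cU * hh δ i / i ≤ np δ i (pi i k) ∧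
      |(k : ℝ) - pi i k| * hh δ i ≤ (2 : ℝ) ^ (0.57 * (i : ℝ)) := by
    intro i hi k hk
    have h1 := (mBs i k).mp hk
    have h2 := (mBad i k).mp h1.1
    exact (hpi i hi).1 k h2.1 h2.2 h1.2
  have hfib : ∀ i : ℕ, i₁ ≤ i → ∀ k' : ℕ, ((Bs i).filter (fun k => pi i k = k')).card ≤
      ⌈2 * CB / c1⌉₊ + 1 := by
    intro i hi k'
    refine le_trans (card_le_card ?_) ((hpi i hi).2 k')
    intro k hk
    rw [mem_filter] at hk
    have h1 := (mBs i k).mp hk.1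
    have h2 := (mBad i k).mp h1.1
    rw [mem_filter, mem_range]
    exact ⟨h2.1, h2.2, h1.2, hk.2⟩
  have hX : ∀ i : ℕ, i₁ ≤ i → (((Bs i).filter (fun k => ∑ v ∈ Us i k, 1 / (v : ℝ) < cu)).card : ℝ) ≤
      (2 : ℝ) ^ (0.1162 * (i : ℝ)) := by
    intro i hi
    refine hUS i (Bs i) (pi i) (Lt i) (hi2.trans hi) ?_ (hfib i hi) ?_ ?_
    · intro k hk
      exact ⟨((mBad i k).mp (hBsB i hk)).1, (hPg i hi k hk).1⟩
    · refine le_trans ?_ (hcardBad i hi)
      exact_mod_cast card_le_card (hBsB i)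
    · intro q hq
      exact hq
  have hpoor : ∀ i : ℕ, i₁ ≤ i → ((Bad i \ Bs i).card : ℝ) ≤
      (2 : ℝ) ^ (0.045 * (i : ℝ)) * (2 : ℝ) ^ ((0.07 + δ) * (i : ℝ) + 1) := by
    intro i hi
    obtain ⟨hb1, hb2, -, hb4, -, -⟩ := hBLC δ i hδ hδ100 (by omega)
    set PB : Finset ℕ := (range (2 ^ i / HB i)).filter (fun b => nb i b < c1 * HB i / i) with hPB
    have hPBc : (PB.card : ℝ) ≤ (2 : ℝ) ^ (0.045 * (i : ℝ)) := hBLK i (hiB.trans hi)
    have hsub : Bad i \ Bs i ⊆ PB.biUnion (fun b => (range (nc δ i)).filter (fun k => bl δ i k = b)) := by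
      intro k hk
      rw [Finset.mem_sdiff] at hk
      have h1 := (mBad i k).mp hk.1
      have h2 : nb i (bl δ i k) < c1 * HB i / i := by
        by_contra hc
        exact hk.2 ((mBs i k).mpr ⟨hk.1, not_lt.mp hc⟩)
      rw [mem_biUnion]
      refine ⟨bl δ i k, ?_, ?_⟩
      · rw [hPB, mem_filter, mem_range]
        exact ⟨hb1 k h1.1, h2⟩
      · rw [mem_filter, mem_range]
        exact ⟨h1.1, rfl⟩
    have hcard : (Bad i \ Bs i).card ≤ PB.card * (HB i / hh δ i) := by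
      refine (card_le_card hsub).trans ?_
      refine card_biUnion_le_card_mul _ _ _ ?_
      intro b hb
      rw [hPB, mem_filter, mem_range] at hb
      exact (hb2 b hb.1).le
    calc ((Bad i \ Bs i).card : ℝ) ≤ ((PB.card * (HB i / hh δ i) : ℕ) : ℝ) := by exact_mod_cast hcard
      _ = (PB.card : ℝ) * ((HB i / hh δ i : ℕ) : ℝ) := by rw [Nat.cast_mul]
      _ ≤ _ := mul_le_mul hPBc hb4 (Nat.cast_nonneg _) (by positivity)
  refine ⟨{
    δ := δ
    cU := cU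
    cu := cu
    cq := cq
    cH := cs / 2
    CB := CB
    B0 := ⌈2 * CB / c1⌉₊ + 1
    i₁ := i₁
    B1 := B1
    B2 := B2
    pi := pi
    Lt := Lt
    Us := Us
    hδ := hδ
    hδ' := hδ24
    hcU := hcU
    hcu := hcu
    hcq := hcq
    hcH := by positivity
    hCB := hCB1
    hi₁ := by omega
    sub := ?_
    disj := ?_
    good := ?_
    card1 := ?_
    card2 := ?_
    pi_good := ?_
    pi_near := ?_
    pi_fib := ?_
    us_sub := ?_
    us_sum := ?_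
    us_q := ?_
    light := ?_
    host2 := ?_
    btr := hbtr' }⟩
  · intro i k hk
    rw [hU] at hk
    exact ((mBad i k).mp hk).1
  · intro i
    exact disjoint_sdiff
  · intro i hi k hk hkn
    rw [hU] at hkn
    by_contra hc
    exact hkn ((mBad i k).mpr ⟨hk, not_le.mp hc⟩)
  · intro i hi
    refine le_trans ?_ (hcardBad i hi)
    exact_mod_cast card_le_card ((hB1s i).trans (hBsB i))
  · intro i hi
    have hsub : B2 i ⊆ (Bad i \ Bs i) ∪ (Bs i).filter (fun k => ∑ v ∈ Us i k, 1 / (v : ℝ) < cu) := by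
      intro k hk
      have h := (mB2 i k).mp hk
      by_cases hk2 : k ∈ Bs i
      · refine mem_union_right _ (mem_filter.mpr ⟨hk2, ?_⟩)
        by_contra hc
        exact h.2 ((mB1 i k).mpr ⟨hk2, not_lt.mp hc⟩)
      · exact mem_union_left _ (Finset.mem_sdiff.mpr ⟨h.1, hk2⟩)
    have hc : ((B2 i).card : ℝ) ≤ ((Bad i \ Bs i).card : ℝ) +
        (((Bs i).filter (fun k => ∑ v ∈ Us i k, 1 / (v : ℝ) < cu)).card : ℝ) := by
      exact_mod_cast (card_le_card hsub).trans (card_union_le _ _)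
    have h1 := hpoor i hi
    have h2 := hX i hi
    have h3 := num2 hδ hδ24 (hi4000.trans hi)
    linarith
  · intro i hi k hk
    have h := hPg i hi k (hB1s i hk)
    refine ⟨h.1, ?_⟩
    rw [hU]
    intro hc
    exact absurd ((mBad i _).mp hc).2 (not_lt.mpr h.2.1)
  · intro i hi k hk
    exact (hPg i hi k (hB1s i hk)).2.2
  · intro i hi k'
    refine le_trans (card_le_card ?_) (hfib i hi k')
    exact filter_subset_filter _ (hB1s i)
  · intro i hi k hk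
    exact filter_subset _ _
  · intro i hi k hk
    exact ((mB1 i k).mp hk).2
  · intro i hi k hk v hv
    exact (mem_filter.mp hv).2
  · intro i hi q hq
    refine le_trans ?_ hq
    have hsub : (VR i).filter (fun v => v * q ∈ ActD δ i (B1 i ∪ (B1 i).image (pi i))) ⊆
        (VR i).filter (fun v => v * q ∈ ActD δ i (Bs i ∪ (Bs i).image (pi i))) := by
      intro v hv
      rw [mem_filter] at hv ⊢
      refine ⟨hv.1, ?_⟩
      have h := hv.2
      unfold ActD at h ⊢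
      rw [mem_biUnion] at h ⊢
      obtain ⟨k, hk, hkc⟩ := h
      refine ⟨k, ?_, hkc⟩
      exact union_subset_union (hB1s i) (image_subset_image (hB1s i)) hk
    exact_mod_cast card_le_card hsub
  · intro i hi k hk
    have hkB := (mBad i k).mp ((mB2 i k).mp hk).1
    have hle : (k + 1) * hh δ i ≤ 2 ^ i := by
      calc (k + 1) * hh δ i ≤ nc δ i * hh δ i := Nat.mul_le_mul_right _ hkB.1
        _ ≤ 2 ^ i := Nat.div_mul_le_self _ _
    have hle' : 2 ^ i + k * hh δ i ≤ 2 ^ (i + 1) := by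
      have h1 : k * hh δ i ≤ (k + 1) * hh δ i := Nat.mul_le_mul_right _ (Nat.le_succ k)
      rw [pow_succ]
      omega
    have hS := hSI i (2 ^ i + k * hh δ i) (hi1.trans hi) (Nat.le_add_right _ _) hle'
    have hsub : (Ioc (2 ^ i + k * hh δ i) (2 ^ i + k * hh δ i + hh δ i)).filter
        (fun n => Squarefree n ∧ Rough ((2 : ℝ) ^ (0.24 * (i : ℝ))) n) ⊆
        H2D δ i k ∪ (cell δ i k).filter Nat.Prime := by
      intro n hn
      rw [mem_filter, ← cell_eq] at hn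
      rw [mem_union]
      by_cases hp : n.Prime
      · exact Or.inr (mem_filter.mpr ⟨hn.1, hp⟩)
      · exact Or.inl (mem_filter.mpr ⟨hn.1, hn.2.1, hn.2.2, hp⟩)
    have hc : (((Ioc (2 ^ i + k * hh δ i) (2 ^ i + k * hh δ i + hh δ i)).filter
        (fun n => Squarefree n ∧ Rough ((2 : ℝ) ^ (0.24 * (i : ℝ))) n)).card : ℝ) ≤
        ((H2D δ i k).card : ℝ) + np δ i k := by
      unfold np
      exact_mod_cast (card_le_card hsub).trans (card_union_le _ _)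
    have h3 : cU * hh δ i / i ≤ cs / 2 * hh δ i / i :=
      div_le_div_of_nonneg_right (mul_le_mul_of_nonneg_right hcUs (Nat.cast_nonneg _))
        (Nat.cast_nonneg _)
    have h4 : cs * (hh δ i : ℝ) / i = cs / 2 * hh δ i / i + cs / 2 * hh δ i / i := by ring
    have h5 := hkB.2
    linarith

end Pool.Agent.Q208.KZ
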